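import Mathlib

open Real Set Filter Topology
open scoped ContDiff

namespace Pool.Agent.Results.MP_d2a7e5_an.NotCM

theorem shift_deriv {f : ℝ → ℝ} {f' x c : ℝ} (h : HasDerivAt f f' (x + c)) :
    HasDerivAt (fun y => f (y + c)) f' x := by
  have h1 : HasDerivAt (fun y : ℝ => y + c) 1 x := (hasDerivAt_id' x).add_const c
  have h2 := HasDerivAt.comp x h h1
  rw [mul_one] at h2
  exact h2

/-- The digamma function on the reals. -/
noncomputable def psi (x : ℝ) : ℝ := deriv Real.Gamma x / Real.Gamma x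

/-- The approximating function `𝓛(x, a)`. -/
noncomputable def LL (x a : ℝ) : ℝ :=
  1 / (90 * a ^ 2 + 2) * Real.log (x ^ 2 + x + (3 * a + 1) / 3) +
    45 * a ^ 2 / (90 * a ^ 2 + 2) * Real.log (x ^ 2 + x + (15 * a - 1) / (45 * a))

/-- The parameter `a₁`. -/
noncomputable def a1 : ℝ := (40 + 3 * √205) / 105

/-- The remainder `G(x) = 𝓛(x, a₁) - ψ(x + 1)`. -/
noncomputable def G (x : ℝ) : ℝ := LL x a1 - psi (x + 1)

/-- Complete monotonicity on `(-1, ∞)`. -/
def CompletelyMonotonic (f : ℝ → ℝ) : Prop :=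
  ContDiffOn ℝ ∞ f (Set.Ioi (-1)) ∧ ∀ n : ℕ, ∀ x : ℝ, -1 < x → 0 ≤ (-1) ^ n * iteratedDeriv n f x

theorem gamma_analytic {x : ℝ} (hx : 0 < x) : AnalyticAt ℝ Real.Gamma x := by
  have h1 : AnalyticAt ℂ Complex.Gamma (x : ℂ) := by
    have hd : DifferentiableOn ℂ Complex.Gamma {z : ℂ | 0 < z.re} := by
      intro z hz
      refine (Complex.differentiableAt_Gamma z fun m hm => ?_).differentiableWithinAt
      have hz' : 0 < z.re := hz
      rw [hm] at hz'
      simp at hz'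
      have : (0 : ℝ) ≤ m := Nat.cast_nonneg m
      linarith
    exact hd.analyticAt ((isOpen_lt continuous_const Complex.continuous_re).mem_nhds (by simpa))
  have h2 : ContDiffAt ℂ ω Complex.Gamma (x : ℂ) := h1.contDiffAt
  have h3 : ContDiffAt ℝ ω (fun y : ℝ => (Complex.Gamma y).re) x := h2.real_of_complex
  exact h3.analyticAt

theorem psi_analytic {x : ℝ} (hx : 0 < x) : AnalyticAt ℝ psi x :=
  (gamma_analytic hx).deriv.div (gamma_analytic hx) (Real.Gamma_pos_of_pos hx).ne'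

theorem psi_add_one {x : ℝ} (hx : 0 < x) : psi (x + 1) = psi x + 1 / x := by
  have h1 : HasDerivAt Real.Gamma (deriv Real.Gamma x) x :=
    (gamma_analytic hx).differentiableAt.hasDerivAt
  have h2 : HasDerivAt Real.Gamma (deriv Real.Gamma (x + 1)) (x + 1) :=
    (gamma_analytic (by linarith)).differentiableAt.hasDerivAt
  have h3 : HasDerivAt (fun y => Real.Gamma (y + 1)) (deriv Real.Gamma (x + 1)) x := by
    exact shift_deriv h2
  have h4 : HasDerivAt (fun y => y * Real.Gamma y) (1 * Real.Gamma x + x * deriv Real.Gamma x) x :=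
    (hasDerivAt_id x).mul h1
  have h5 : (fun y => Real.Gamma (y + 1)) =ᶠ[𝓝 x] (fun y => y * Real.Gamma y) := by
    filter_upwards [isOpen_Ioi.mem_nhds (show x ∈ Set.Ioi (0 : ℝ) from hx)] with y hy
    exact Real.Gamma_add_one (ne_of_gt hy)
  have h6 := (h4.congr_of_eventuallyEq h5).unique h3
  have hg : Real.Gamma x ≠ 0 := (Real.Gamma_pos_of_pos hx).ne'
  unfold psi
  rw [← h6, Real.Gamma_add_one hx.ne']
  field_simp
  ring

/-- Derivatives of `log (y ^ 2 + d)`. -/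
noncomputable def F0 (d y : ℝ) : ℝ := Real.log (y ^ 2 + d)
noncomputable def F1 (d y : ℝ) : ℝ := 2 * y / (y ^ 2 + d)
noncomputable def F2 (d y : ℝ) : ℝ := (2 * d - 2 * y ^ 2) / (y ^ 2 + d) ^ 2
noncomputable def F3 (d y : ℝ) : ℝ := (4 * y ^ 3 - 12 * d * y) / (y ^ 2 + d) ^ 3
noncomputable def F4 (d y : ℝ) : ℝ :=
  (-12 * y ^ 4 + 72 * d * y ^ 2 - 12 * d ^ 2) / (y ^ 2 + d) ^ 4

theorem base (d y : ℝ) : HasDerivAt (fun y : ℝ => y ^ 2 + d) (2 * y) y := by
  simpa using (hasDerivAt_pow 2 y).add_const d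

theorem F0_deriv {d : ℝ} (hd : 0 < d) (y : ℝ) : HasDerivAt (F0 d) (F1 d y) y := by
  have hpos : y ^ 2 + d ≠ 0 := by positivity
  exact (base d y).log hpos

theorem F1_deriv {d : ℝ} (hd : 0 < d) (y : ℝ) : HasDerivAt (F1 d) (F2 d y) y := by
  have hpos : y ^ 2 + d ≠ 0 := by positivity
  have h1 : HasDerivAt (fun y : ℝ => 2 * y) 2 y := by
    simpa using (hasDerivAt_id y).const_mul (2 : ℝ)
  have h2 := h1.div (base d y) hpos
  refine h2.congr_deriv ?_
  unfold F2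
  field_simp
  ring

theorem F2_deriv {d : ℝ} (hd : 0 < d) (y : ℝ) : HasDerivAt (F2 d) (F3 d y) y := by
  have hpos : y ^ 2 + d ≠ 0 := by positivity
  have h1 : HasDerivAt (fun y : ℝ => 2 * d - 2 * y ^ 2) (-(2 * (2 * y))) y := by
    simpa using ((hasDerivAt_pow 2 y).const_mul (2 : ℝ)).const_sub (2 * d)
  have h2 := h1.fun_div ((base d y).fun_pow 2) (pow_ne_zero 2 hpos)
  refine h2.congr_deriv ?_
  unfold F3
  field_simp
  ring

theorem F3_deriv {d : ℝ} (hd : 0 < d) (y : ℝ) : HasDerivAt (F3 d) (F4 d y) y := by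
  have hpos : y ^ 2 + d ≠ 0 := by positivity
  have h1 : HasDerivAt (fun y : ℝ => 4 * y ^ 3 - 12 * d * y) (4 * (3 * y ^ 2) - 12 * d) y := by
    have h3 := ((hasDerivAt_pow 3 y).const_mul (4 : ℝ)).fun_sub
      ((hasDerivAt_id' y).const_mul (12 * d))
    simpa using h3
  have h2 := h1.fun_div ((base d y).fun_pow 3) (pow_ne_zero 3 hpos)
  refine h2.congr_deriv ?_
  unfold F4
  field_simp
  ring

noncomputable def R0 (x : ℝ) : ℝ := 1 / (x + 1)
noncomputable def R1 (x : ℝ) : ℝ := -1 / (x + 1) ^ 2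
noncomputable def R2 (x : ℝ) : ℝ := 2 / (x + 1) ^ 3
noncomputable def R3 (x : ℝ) : ℝ := -6 / (x + 1) ^ 4
noncomputable def R4 (x : ℝ) : ℝ := 24 / (x + 1) ^ 5

theorem R_aux {x : ℝ} (hx : -1 < x) (c : ℝ) (n : ℕ) :
    HasDerivAt (fun x : ℝ => c / (x + 1) ^ (n + 1)) (-(c * (n + 1)) / (x + 1) ^ (n + 2)) x := by
  have hpos : x + 1 ≠ 0 := by linarith
  have h1 : HasDerivAt (fun x : ℝ => (x + 1) ^ (n + 1)) ((n + 1) * (x + 1) ^ n) x := by
    have := ((hasDerivAt_id' x).add_const (1 : ℝ)).fun_pow (n + 1)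
    simpa using this
  have h2 := (hasDerivAt_const x c).fun_div h1 (pow_ne_zero _ hpos)
  refine h2.congr_deriv ?_
  field_simp
  ring

theorem R0_deriv {x : ℝ} (hx : -1 < x) : HasDerivAt R0 (R1 x) x := by
  have h := R_aux hx 1 0
  simp only [zero_add, pow_one] at h
  refine h.congr_deriv ?_
  unfold R1; norm_num

theorem R1_deriv {x : ℝ} (hx : -1 < x) : HasDerivAt R1 (R2 x) x := by
  refine (R_aux hx (-1) 1).congr_deriv ?_
  unfold R2; norm_num

theorem R2_deriv {x : ℝ} (hx : -1 < x) : HasDerivAt R2 (R3 x) x := by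
  refine (R_aux hx 2 2).congr_deriv ?_
  unfold R3; norm_num

theorem R3_deriv {x : ℝ} (hx : -1 < x) : HasDerivAt R3 (R4 x) x := by
  refine (R_aux hx (-6) 3).congr_deriv ?_
  unfold R4; norm_num

/-- The combination with weights `p, q`. -/
noncomputable def comb (p q d e : ℝ) (F : ℝ → ℝ → ℝ) (R : ℝ → ℝ) (x : ℝ) : ℝ :=
  p * (F d (x + 1 / 2) - F d (x + 3 / 2)) + q * (F e (x + 1 / 2) - F e (x + 3 / 2)) + R x

theorem comb_deriv (p q : ℝ) {d e : ℝ} {F F' : ℝ → ℝ → ℝ} {R R' : ℝ → ℝ}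
    (hd : ∀ y, HasDerivAt (F d) (F' d y) y) (he : ∀ y, HasDerivAt (F e) (F' e y) y) {x : ℝ}
    (hR : HasDerivAt R (R' x) x) :
    HasDerivAt (comb p q d e F R) (comb p q d e F' R' x) x := by
  have hs : ∀ (f : ℝ → ℝ) (f' : ℝ → ℝ) (c : ℝ), (∀ y, HasDerivAt f (f' y) y) →
      HasDerivAt (fun x => f (x + c)) (f' (x + c)) x := by
    intro f f' c h
    exact shift_deriv (h (x + c))
  exact ((((hs _ _ _ hd).sub (hs _ _ _ hd)).const_mul p).add
    (((hs _ _ _ he).sub (hs _ _ _ he)).const_mul q)).add hR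

noncomputable def pp : ℝ := 1 / (90 * a1 ^ 2 + 2)
noncomputable def qq : ℝ := 45 * a1 ^ 2 / (90 * a1 ^ 2 + 2)
noncomputable def d1 : ℝ := a1 + 1 / 12
noncomputable def d2 : ℝ := 1 / 12 - 1 / (45 * a1)

theorem a1_bounds : 7 / 10 < a1 ∧ a1 < 8 / 10 := by
  have h1 : (14.3 : ℝ) < √205 := by
    rw [Real.lt_sqrt (by norm_num)]; norm_num
  have h2 : √205 < (14.4 : ℝ) := by
    rw [Real.sqrt_lt' (by norm_num)]; norm_num
  unfold a1
  constructor <;> linarith

theorem d1_pos : 0 < d1 := by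
  have := a1_bounds.1
  unfold d1; linarith

theorem d2_bounds : 0 < d2 ∧ d2 < 0.056 := by
  obtain ⟨h1, h2⟩ := a1_bounds
  have h3 : 0 < 45 * a1 := by linarith
  unfold d2
  constructor
  · have : 1 / (45 * a1) < 1 / 12 := by
      rw [div_lt_div_iff₀ h3 (by norm_num)]
      linarith
    linarith
  · have : 1 / 36 < 1 / (45 * a1) := by
      rw [div_lt_div_iff₀ (by norm_num) h3]
      linarith
    linarith

theorem LL_eq (x : ℝ) : LL x a1 = pp * F0 d1 (x + 1 / 2) + qq * F0 d2 (x + 1 / 2) := by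
  have h3 : a1 ≠ 0 := by have := a1_bounds.1; linarith
  unfold LL F0 pp qq
  have e1 : x ^ 2 + x + (3 * a1 + 1) / 3 = (x + 1 / 2) ^ 2 + d1 := by unfold d1; ring
  have e2 : x ^ 2 + x + (15 * a1 - 1) / (45 * a1) = (x + 1 / 2) ^ 2 + d2 := by
    unfold d2; field_simp; ring
  rw [e1, e2]

theorem F0_analytic {d : ℝ} (hd : 0 < d) (y : ℝ) : AnalyticAt ℝ (F0 d) y := by
  have hpos : 0 < y ^ 2 + d := by positivity
  unfold F0
  exact AnalyticAt.log (by fun_prop) hpos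

theorem G_analytic {x : ℝ} (hx : -1 < x) : AnalyticAt ℝ G x := by
  have h1 : G = fun x => pp * F0 d1 (x + 1 / 2) + qq * F0 d2 (x + 1 / 2) - psi (x + 1) := by
    ext x
    rw [← LL_eq]
    rfl
  rw [h1]
  have hs : ∀ c : ℝ, AnalyticAt ℝ (fun x : ℝ => x + c) x := fun c => by fun_prop
  have h2 : AnalyticAt ℝ (fun x => F0 d1 (x + 1 / 2)) x :=
    AnalyticAt.fun_comp_of_eq (F0_analytic d1_pos (x + 1 / 2)) (hs _) rfl
  have h3 : AnalyticAt ℝ (fun x => F0 d2 (x + 1 / 2)) x :=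
    AnalyticAt.fun_comp_of_eq (F0_analytic d2_bounds.1 (x + 1 / 2)) (hs _) rfl
  have h4 : AnalyticAt ℝ (fun x => psi (x + 1)) x :=
    AnalyticAt.fun_comp_of_eq (psi_analytic (show 0 < x + 1 by linarith)) (hs _) rfl
  exact ((analyticAt_const.mul h2).add (analyticAt_const.mul h3)).sub h4

theorem iter_analytic (n : ℕ) {x : ℝ} (hx : -1 < x) : AnalyticAt ℝ (iteratedDeriv n G) x := by
  rw [iteratedDeriv_eq_iterate]
  induction n with
  | zero => exact G_analytic hx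
  | succ n ih =>
    rw [Function.iterate_succ_apply']
    exact ih.deriv

theorem iter_deriv (n : ℕ) {x : ℝ} (hx : -1 < x) :
    HasDerivAt (iteratedDeriv n G) (iteratedDeriv (n + 1) G x) x := by
  rw [iteratedDeriv_succ]
  exact (iter_analytic n hx).differentiableAt.hasDerivAt

/-- The first difference of the `n`-th derivative. -/
noncomputable def K (n : ℕ) (x : ℝ) : ℝ := iteratedDeriv n G x - iteratedDeriv n G (x + 1)

theorem K_deriv (n : ℕ) {x : ℝ} (hx : -1 < x) : HasDerivAt (K n) (K (n + 1) x) x := by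
  have h1 := iter_deriv n hx
  have h2 : HasDerivAt (fun x => iteratedDeriv n G (x + 1)) (iteratedDeriv (n + 1) G (x + 1)) x := by
    exact shift_deriv (iter_deriv n (show -1 < x + 1 by linarith))
  exact h1.sub h2

theorem K_zero {x : ℝ} (hx : -1 < x) : K 0 x = comb pp qq d1 d2 F0 R0 x := by
  have h1 : psi (x + 1 + 1) = psi (x + 1) + 1 / (x + 1) := psi_add_one (by linarith)
  unfold K
  rw [iteratedDeriv_zero]
  unfold G comb R0
  rw [LL_eq, LL_eq, h1]
  have e : x + 1 + 1 / 2 = x + 3 / 2 := by ring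
  rw [e]
  ring

theorem step (n : ℕ) {h h' : ℝ → ℝ} (hK : ∀ x, -1 < x → K n x = h x)
    (hd : ∀ x, -1 < x → HasDerivAt h (h' x) x) : ∀ x, -1 < x → K (n + 1) x = h' x := by
  intro x hx
  have h1 : K n =ᶠ[𝓝 x] h := by
    filter_upwards [isOpen_Ioi.mem_nhds (show x ∈ Set.Ioi (-1 : ℝ) from hx)] with y hy
    exact hK y hy
  exact (K_deriv n hx).unique ((hd x hx).congr_of_eventuallyEq h1)

theorem K_four {x : ℝ} (hx : -1 < x) : K 4 x = comb pp qq d1 d2 F4 R4 x := by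
  have s0 := step 0 (fun x hx => K_zero hx) (fun x hx => comb_deriv pp qq (F0_deriv d1_pos)
    (F0_deriv d2_bounds.1) (R0_deriv hx))
  have s1 := step 1 s0 (fun x hx => comb_deriv pp qq (F1_deriv d1_pos)
    (F1_deriv d2_bounds.1) (R1_deriv hx))
  have s2 := step 2 s1 (fun x hx => comb_deriv pp qq (F2_deriv d1_pos)
    (F2_deriv d2_bounds.1) (R2_deriv hx))
  have s3 := step 3 s2 (fun x hx => comb_deriv pp qq (F3_deriv d1_pos)
    (F3_deriv d2_bounds.1) (R3_deriv hx))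
  exact s3 x hx

theorem pq_bounds : 0 < pp ∧ pp < 1 / 2 ∧ 0.4 < qq ∧ qq < 1 / 2 := by
  obtain ⟨h1, h2⟩ := a1_bounds
  have h3 : 0 < 90 * a1 ^ 2 + 2 := by positivity
  have h4 : 0.49 < a1 ^ 2 := by nlinarith
  unfold pp qq
  refine ⟨by positivity, ?_, ?_, ?_⟩
  · rw [div_lt_div_iff₀ h3 (by norm_num)]; nlinarith
  · rw [lt_div_iff₀ h3]; nlinarith
  · rw [div_lt_div_iff₀ h3 (by norm_num)]; nlinarith

theorem F4_zero {d : ℝ} (hd : 0 < d) : F4 d 0 = -12 / d ^ 2 := by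
  unfold F4
  field_simp
  ring

theorem F4_one {d : ℝ} (hd : 0 < d) : -12 ≤ F4 d 1 := by
  unfold F4
  rw [le_div_iff₀ (by positivity)]
  have h1 : 0 ≤ d ^ 4 := by positivity
  have h2 : 0 ≤ d ^ 3 := by positivity
  have h3 : 0 ≤ d ^ 2 := by positivity
  nlinarith

theorem K_four_neg : K 4 (-1 / 2) < 0 := by
  rw [K_four (by norm_num)]
  unfold comb
  obtain ⟨hp0, hp1, hq0, hq1⟩ := pq_bounds
  obtain ⟨hd0, hd1⟩ := d2_bounds
  have e1 : (-1 / 2 : ℝ) + 1 / 2 = 0 := by norm_num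
  have e2 : (-1 / 2 : ℝ) + 3 / 2 = 1 := by norm_num
  rw [e1, e2, F4_zero d1_pos, F4_zero hd0]
  have h1 := F4_one d1_pos
  have h2 := F4_one hd0
  have h3 : R4 (-1 / 2) = 768 := by unfold R4; norm_num
  have h4 : -12 / d1 ^ 2 ≤ 0 := by
    apply div_nonpos_of_nonpos_of_nonneg (by norm_num); positivity
  have h5 : -12 / d2 ^ 2 < -3800 := by
    rw [div_lt_iff₀ (by positivity)]
    nlinarith
  rw [h3]
  have h6 : pp * (-12 / d1 ^ 2 - F4 d1 1) ≤ pp * 12 :=
    mul_le_mul_of_nonneg_left (by linarith) hp0.le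
  have h7 : qq * (-12 / d2 ^ 2 - F4 d2 1) ≤ qq * (-3788) :=
    mul_le_mul_of_nonneg_left (by linarith) (by linarith)
  nlinarith

/-- The function `G` is smooth on `(-1, ∞)` but not completely monotonic: the fifth derivative is
positive somewhere. -/
theorem result :
    ContDiffOn ℝ ∞ G (Set.Ioi (-1)) ∧ (∃ x : ℝ, -1 < x ∧ (-1) ^ 5 * iteratedDeriv 5 G x < 0) ∧
      ¬ CompletelyMonotonic G := by
  have h1 : ∃ x : ℝ, -1 < x ∧ (-1) ^ 5 * iteratedDeriv 5 G x < 0 := by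
    have hK := K_four_neg
    unfold K at hK
    have e : (-1 / 2 : ℝ) + 1 = 1 / 2 := by norm_num
    rw [e] at hK
    obtain ⟨c, hc, hc'⟩ := exists_hasDerivAt_eq_slope (iteratedDeriv 4 G) (iteratedDeriv 5 G)
      (show (-1 / 2 : ℝ) < 1 / 2 by norm_num)
      (fun x hx => (iter_analytic 4 (show -1 < x by have := hx.1; linarith)).continuousAt.continuousWithinAt)
      (fun x hx => iter_deriv 4 (show -1 < x by have := hx.1; linarith))
    refine ⟨c, by have := hc.1; linarith, ?_⟩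
    rw [hc']
    have e2 : (1 / 2 : ℝ) - -1 / 2 = 1 := by norm_num
    rw [e2]
    linarith
  refine ⟨fun x hx => (G_analytic hx).contDiffAt.contDiffWithinAt, h1, ?_⟩
  rintro ⟨-, h2⟩
  obtain ⟨x, hx, hneg⟩ := h1
  exact absurd (h2 5 x hx) (not_le.2 hneg)

end Pool.Agent.Results.MP_d2a7e5_an.NotCM
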